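import Pool.Agent.Lib.MP_d0e86e_al.GoalB2

/-!
# The conjugacy ratio is always a limit

For every group `G` there is a real number `L` such that, for every finite generating set `X`
of `G`, the quotient of the number of conjugacy classes meeting the ball of radius `n` by the
number of elements of this ball tends to `L`; and `L` is positive exactly when `G` has an
abelian subgroup of finite index.
-/

open Filter Topology

namespace Pool.Agent.Results.MP_d0e86e_al.LimitExists

open Pool.Agent.MPd0e86e

universe u

theorem ratio_eq {G : Type u} [Group G] (X : Finset G)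
    (hX : Subgroup.closure (X : Set G) = ⊤) (n : ℕ) :
    ratio X n = ((CL (ballSys X hX) n).card : ℝ) / ((ballSys X hX).f n : ℝ) := by
  classical
  have h1 : (ballSys X hX).f n = (ball X n).ncard := ballSys_card X hX n
  have h2 : (CL (ballSys X hX) n).card = (classes X n).ncard := by
    rw [← Set.ncard_coe_finset]
    congr 1
    ext c
    rw [Finset.mem_coe, CL, Finset.mem_image]
    constructor
    · rintro ⟨g, hg, hgc⟩
      exact ⟨g, (mem_ballSys X hX n g).mp hg, hgc⟩
    · rintro ⟨g, hg, hgc⟩
      exact ⟨g, (mem_ballSys X hX n g).mpr hg, hgc⟩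
  rw [ratio, h1, h2]

/-- For every group `G` there is one real number `L` such that for every finite generating set
`X` of `G` the ratios `|C(n)| / |B(n)|` converge to `L`. Moreover `L > 0` if and only if `G`
has an abelian subgroup of finite index. -/
theorem result (G : Type u) [Group G] :
    ∃ L : ℝ, (∀ X : Finset G, Subgroup.closure (X : Set G) = ⊤ →
      Tendsto (fun n : ℕ => ((classes X n).ncard : ℝ) / ((ball X n).ncard : ℝ)) atTop (𝓝 L)) ∧
      (0 < L ↔ ∃ A : Subgroup G, A.FiniteIndex ∧ ∀ x ∈ A, ∀ y ∈ A, x * y = y * x) := by
  by_cases h : VirtAb G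
  · obtain ⟨L, hL, hL'⟩ := goalB h
    refine ⟨L, fun X hX => ?_, fun _ => h, fun _ => hL⟩
    refine (hL' (ballSys X hX)).congr (fun n => ?_)
    exact (ratio_eq X hX n).symm
  · refine ⟨0, fun X hX => ?_, fun h0 => (lt_irrefl _ h0).elim, fun h' => (h h').elim⟩
    refine (goalA (ballSys X hX) h).congr (fun n => ?_)
    exact (ratio_eq X hX n).symm

end Pool.Agent.Results.MP_d0e86e_al.LimitExists
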